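import Pool.Agent.N694.PW.Box
import Pool.Agent.N694.BR.Abs

/-!
# Almost all tuples of shifts in a Bohr set: prime tuples between consecutive fifth powers

The question is whether between `n⁵` and `(n + 1)⁵` there is always a prime quadruplet
`(p, p + 2, p + 6, p + 8)`. Call a vector `h = (h_1, ..., h_k)` of integers good for the exponent `A ≥ 2` if there
are `c > 0` and `C` such that for arbitrarily large `X` at least `c X` of the `n < X` are such that between `n^A`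
and `(n + 1)^A` there are at least `n^(A-1) / (log n)^C` tuples `(p, p + h_1, ..., p + h_k)` of primes.

For all `k`, `s` and `ε > 0` there are `d` and `ρ, δ > 0` such that for all `A ≥ 2` there are `M` and `n₀` such that
for EVERY multiple `N` of `M` and every `H ≥ n₀` there are real numbers `θ_1, ..., θ_d'`, `d' ≤ d`, and a radius
`ρ ≤ r ≤ 1` such that the Bohr set

  `B = { t : |t| ≤ H, |exp (2 π i θ_j t) - 1| ≤ r for all j }`

has at least `δ H` elements, and for all but at most `ε |B|^k` of the vectors `y ∈ B^k` all the vectors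
`N T y`, `T` a nonsingular integer matrix with entries at most `s` in absolute value, are good. With `k = 3` and
`A = 5`: almost all of the quadruples of shifts `0, N y_1, N (y_1 + y_2), N (y_1 + y_2 + y_3)`, for instance, occur
many times as quadruples of primes between `n⁵` and `(n + 1)⁵`, for a positive proportion of the `n`.

Proof: `Pool.Agent.N694.PW.cleP` (coloured Maynard-Tao theorem with rough values `Pool.Agent.Y827.RO.lamR0`, an
upper bound sieve in intervals, almost cliques `Pool.Agent.N646.AC.wclique`) and the theorem on returns in Bohr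
sets (`Pool.Agent.N646.AC.returnsZ`) of helper646.
-/

set_option autoImplicit false

namespace Pool.Agent.Results.MP_c03ca8_nt.BohrSetsBetweenPowers

open Finset Filter

/-- the number of the `p` such that all the numbers `p + h_0, ..., p + h_k` are primes strictly between `n^A`
and `(n + 1)^A` -/
noncomputable def tuples (A n : ℕ) {k : ℕ} (h : Fin (k + 1) → ℤ) : ℕ :=
  {p : ℕ | ∀ i, ((n ^ A : ℕ) : ℤ) < (p : ℤ) + h i ∧ (p : ℤ) + h i < (((n + 1) ^ A : ℕ) : ℤ) ∧
    ((p : ℤ) + h i).toNat.Prime}.ncard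

/-- There are `c > 0` and `C` such that for arbitrarily large `X` at least `c X` of the `n < X` are such that
there are at least `n^(A-1) / (log n)^C` tuples `(p, p + h_1, ..., p + h_k)` of primes between `n^A` and
`(n + 1)^A`. -/
def Good (A : ℕ) {k : ℕ} (h : Fin k → ℤ) : Prop := ∃ (c : ℝ) (C : ℕ), 0 < c ∧ ∃ᶠ X : ℕ in atTop,
  c * X ≤ ({n : ℕ | n < X ∧ 3 ≤ n ∧ (n : ℝ) ^ (A - 1) / (Real.log n) ^ C ≤
    (tuples A n (Fin.cons 0 h : Fin (k + 1) → ℤ) : ℝ)}.ncard : ℝ)

open Classical in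
/-- the Bohr set of the integers `|t| ≤ H` with `|exp (2πiθt) - 1| ≤ r` for all `θ ∈ Θ` -/
noncomputable def bohrSet (Θ : Finset ℝ) (r : ℝ) (H : ℕ) : Finset ℤ :=
  (Icc (-(H : ℤ)) H).filter (fun t => ∀ θ ∈ Θ,
    ‖Complex.exp (2 * Real.pi * Complex.I * θ * t) - 1‖ ≤ r)

/-- the set of the vectors with `k` coordinates in `B` -/
def vectors (k : ℕ) (B : Finset ℤ) : Finset (Fin k → ℤ) := Fintype.piFinset (fun _ => B)

/-- **Bohr sets of shifts, between consecutive powers.** -/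
theorem result (k s : ℕ) (ε : ℝ) (hε : 0 < ε) : ∃ (d : ℕ) (ρ δ : ℝ), 0 < ρ ∧ 0 < δ ∧
    ∀ A : ℕ, 2 ≤ A → ∃ M n₀ : ℕ, 1 ≤ M ∧
      ∀ N : ℕ, 1 ≤ N → M ∣ N → ∀ H : ℕ, n₀ ≤ H → ∃ (Θ : Finset ℝ) (r : ℝ),
        Θ.card ≤ d ∧ ρ ≤ r ∧ r ≤ 1 ∧ δ * H ≤ (bohrSet Θ r H).card ∧
        ∃ 𝒢 ⊆ vectors k (bohrSet Θ r H),
          ((vectors k (bohrSet Θ r H) \ 𝒢).card : ℝ) ≤ ε * ((bohrSet Θ r H).card : ℝ) ^ k ∧
          ∀ y ∈ 𝒢, ∀ T : Matrix (Fin k) (Fin k) ℤ, (∀ i j, |T i j| ≤ s) → T.det ≠ 0 →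
            Good A (fun i => N * (T.mulVec y) i) := by
  obtain ⟨d, ρ, δ, ε', hρ, hδ, hε', h⟩ := Pool.Agent.N694.BR.bohr k s ε hε
  refine ⟨d, ρ, δ, hρ, hδ, fun A hA => ?_⟩
  obtain ⟨M, n₀, hM, h1⟩ := h _ (Pool.Agent.N694.PW.cleP k ε' hε' A hA)
  refine ⟨M, n₀, hM, fun N hN hMN H hH => ?_⟩
  obtain ⟨Θ, r, g1, g2, g3, g4, 𝒢, g5, g6, g7⟩ := h1 N hN hMN H hH
  refine ⟨Θ, r, g1, g2, g3, g4, 𝒢, g5, ?_, fun y hy T hT hdet => (g7 y hy T hT hdet).2⟩
  refine le_trans (le_of_eq ?_) g6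
  congr 2

end Pool.Agent.Results.MP_c03ca8_nt.BohrSetsBetweenPowers
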