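import Pool.Agent.N39.RW.ChenC

/-!
# Almost prime quadruplets `p, p + 2, p + 6, p + 8` between consecutive fifth powers

The question asks, between any two consecutive fifth powers, for primes `p, p + 2, p + 6, p + 8`. We consider the
quadruplets for which `p` is prime, `p + 2` is a product of at most two primes and `p + 6, p + 8` are products of at
most `r` primes, with a fixed `r`, where all the prime factors of the four numbers are larger than `p ^ (1 / r)`, and
show that a positive proportion of the intervals `(n⁵, (n + 1)⁵)` contains at least `c n⁴ / log⁴ n` of them, the order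
of magnitude which is conjectured for the prime quadruplets. More precisely, a positive proportion of the integers
`t` of such an interval are regular: ALL windows `(u, v]` around `t` of a length between `K log⁴ t` and `t` contain
the right number of them, up to constant factors. The same for all other exponents `s ≥ 2` instead of `5`.
-/

set_option autoImplicit false

open Finset Filter

namespace Pool.Agent.Results.MP_c03ca8_nt.ChenQuadruplets

/-- `p` is a prime, `p + 2` is a product of at most two primes, `p + 6` and `p + 8` are products of at most `r`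
primes, and all prime factors of `p, p + 2, p + 6, p + 8` are larger than `z` -/
def Quad (r : ℕ) (z : ℝ) (p : ℕ) : Prop :=
  p.Prime ∧ (p + 2).primeFactorsList.length ≤ 2 ∧ (p + 6).primeFactorsList.length ≤ r ∧
    (p + 8).primeFactorsList.length ≤ r ∧
    ∀ q : ℕ, q.Prime → (q ∣ p ∨ q ∣ p + 2 ∨ q ∣ p + 6 ∨ q ∣ p + 8) → z < (q : ℝ)

/-- the number of the `p` with `u < p ≤ v` and `Quad r z p` -/
noncomputable def quad (r : ℕ) (z : ℝ) (u v : ℕ) : ℕ := Set.ncard {p : ℕ | u < p ∧ p ≤ v ∧ Quad r z p}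

/-- `t` is regular: all windows around `t` of length between `K log⁴ t` and `t` contain the right number of such
quadruplets, with `z = t ^ (1 / r)` -/
def Regular (r : ℕ) (c₁ c₂ K : ℝ) (t : ℕ) : Prop :=
  ∀ u v : ℕ, u ≤ t → t ≤ v → K * Real.log t ^ 4 ≤ (v : ℝ) - u → (v : ℝ) - u ≤ t →
    c₁ * ((v : ℝ) - u) / Real.log t ^ 4 ≤ (quad r ((t : ℝ) ^ (1 / (r : ℝ))) u v : ℝ) ∧
      (quad r ((t : ℝ) ^ (1 / (r : ℝ))) u v : ℝ) ≤ c₂ * ((v : ℝ) - u) / Real.log t ^ 4

open Pool.Agent.N39.RW

theorem adm (p : ℕ) (hp : p.Prime) : ∃ m : ℕ, ∀ t ∈ ({0, 2, 6, 8} : Finset ℕ), ¬ p ∣ m + t := by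
  rcases (by have := hp.two_le; omega : p < 10 ∨ 10 ≤ p) with h2 | h2
  · have h3 := hp.two_le
    interval_cases p
    · exact ⟨1, by decide⟩
    · exact ⟨2, by decide⟩
    · exact absurd hp (by norm_num)
    · exact ⟨1, by decide⟩
    · exact absurd hp (by norm_num)
    · exact ⟨2, by decide⟩
    · exact absurd hp (by norm_num)
    · exact absurd hp (by norm_num)
  · refine ⟨1, ?_⟩
    intro t ht
    rw [mem_insert, mem_insert, mem_insert, mem_singleton] at ht
    rcases ht with rfl | rfl | rfl | rfl <;> intro h <;> have := Nat.le_of_dvd (by norm_num) h <;> omega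

theorem quad_of (r : ℕ) (z : ℝ) (p : ℕ) (h : Ch {0, 2, 6, 8} 2 ∅ 0 r z p) : Quad r z p := by
  obtain ⟨h1, h2, -, h4⟩ := h
  refine ⟨h1, h2, (h4 6 (by simp)).1, (h4 8 (by simp)).1, ?_⟩
  rintro q hq (h | h | h | h)
  · exact (h4 0 (by simp)).2 q hq (by simpa using h)
  · exact (h4 2 (by simp)).2 q hq h
  · exact (h4 6 (by simp)).2 q hq h
  · exact (h4 8 (by simp)).2 q hq h

/-- There are `r` and `c₁, c₂, K > 0` such that a positive proportion of all integers is regular, and for every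
`s ≥ 2` (for instance `s = 5`) there is `ν > 0` such that for all large `N` at least `ν N` of the integers
`n ∈ [N, 2 N)` have the following properties: at least `ν n ^ (s - 1)` of the integers `t` with
`n ^ s < t < (n + 1) ^ s` are regular, and there are at least `ν n ^ (s - 1) / log⁴ n` integers `p` with
`n ^ s < p < p + 8 < (n + 1) ^ s` such that `p` is prime, `p + 2` is a product of at most two primes, `p + 6`, `p + 8`
are products of at most `r` primes, and all these primes are larger than `n ^ (s / r)`. -/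
theorem result : ∃ (r : ℕ) (c₁ c₂ K : ℝ), 2 ≤ r ∧ 0 < c₁ ∧ 0 < c₂ ∧ 0 < K ∧
    (∃ μ : ℝ, 0 < μ ∧ ∀ᶠ x : ℕ in atTop, μ * x ≤ (Set.ncard {t : ℕ | t ≤ x ∧ Regular r c₁ c₂ K t} : ℝ)) ∧
    ∀ s : ℕ, 2 ≤ s → ∃ ν : ℝ, 0 < ν ∧ ∀ᶠ N : ℕ in atTop, ν * N ≤
      (Set.ncard {n : ℕ | N ≤ n ∧ n < 2 * N ∧
        ν * (n : ℝ) ^ (s - 1) ≤ (Set.ncard {t : ℕ | n ^ s < t ∧ t < (n + 1) ^ s ∧ Regular r c₁ c₂ K t} : ℝ) ∧
        ν * (n : ℝ) ^ (s - 1) / Real.log n ^ 4 ≤
          (Set.ncard {p : ℕ | n ^ s < p ∧ p + 8 < (n + 1) ^ s ∧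
            Quad r ((n : ℝ) ^ ((s : ℝ) / (r : ℝ))) p} : ℝ)} : ℝ) := by
  classical
  obtain ⟨r, c₁, c₂, K, hr, hc₁, hc₂, hK, huse⟩ := useU {0, 2, 6, 8} (by simp) 2 (by simp) (by norm_num) adm
    ∅ (by simp) 0 (by simp) 8
  have hcard : ({0, 2, 6, 8} : Finset ℕ).card = 4 := rfl
  refine ⟨r, c₁, c₂, K, hr, hc₁, hc₂, hK, ?_⟩
  obtain ⟨g1, g2⟩ := huse (Regular r c₁ c₂ K) (by
    filter_upwards with t hreg
    intro u v hu hv h1 h2
    obtain ⟨h3, h4⟩ := hreg u v hu hv (by rw [hcard]; exact h1) h2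
    rw [hcard] at h3 h4
    refine ⟨h3.trans ?_, le_trans ?_ h4⟩
    · unfold quad
      rw [← Set.ncard_coe_finset, Nat.cast_le]
      refine Set.ncard_le_ncard ?_ ((Set.finite_Iic v).subset fun p hp => hp.2.1)
      intro p hp
      rw [mem_coe, mem_filter, mem_Ioc] at hp
      exact ⟨hp.1.1, hp.1.2, quad_of r _ p hp.2⟩
    · unfold quad
      rw [← Set.ncard_coe_finset, Nat.cast_le]
      refine Set.ncard_le_ncard ?_ (Finset.finite_toSet _)
      rintro p ⟨k1, k2, -, -, -, -, k5⟩
      rw [mem_coe, mem_filter, mem_Ioc]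
      refine ⟨⟨k1, k2⟩, ?_⟩
      intro t' ht' q hq hd
      apply k5 q hq
      rw [mem_insert, mem_insert, mem_insert, mem_singleton] at ht'
      rcases ht' with rfl | rfl | rfl | rfl
      · exact Or.inl (by simpa using hd)
      · exact Or.inr (Or.inl hd)
      · exact Or.inr (Or.inr (Or.inl hd))
      · exact Or.inr (Or.inr (Or.inr hd)))
  refine ⟨g1, ?_⟩
  intro s hs
  have g3 := g2 s hs (fun m p => Quad r ((m : ℝ) ^ ((s : ℝ) / (r : ℝ))) p) (by
    filter_upwards with m t p ht _ hch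
    obtain ⟨q1, q2, q3, q4, q5⟩ := quad_of r _ p hch
    refine ⟨q1, q2, q3, q4, fun q hq hd => lt_of_le_of_lt ?_ (q5 q hq hd)⟩
    have e1 : (m : ℝ) ^ ((s : ℝ) / (r : ℝ)) = ((m : ℝ) ^ s) ^ (1 / (r : ℝ)) := by
      rw [← Real.rpow_natCast, ← Real.rpow_mul (Nat.cast_nonneg m)]
      congr 1
      ring
    rw [e1]
    apply Real.rpow_le_rpow (by positivity) _ (by positivity)
    exact_mod_cast ht.le)
  rw [hcard] at g3
  exact g3

end Pool.Agent.Results.MP_c03ca8_nt.ChenQuadruplets
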