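import Pool.Agent.N743.MT.PatPw

/-!
# Exact patterns of `k` primes: every scale above a power of the logarithm, every division into intervals

The question asks for the pattern `p, p + 2, p + 6, p + 8` of four primes between any two consecutive fifth powers.
Here the pattern is not prescribed, but it is taken from any prescribed admissible set `H` of sufficiently many
shifts, and it is exact.

For every `k` there is `K` such that for every admissible set `H` of at least `K` shifts, `R ≥ |h|` (`h ∈ H`) and every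
class `a` modulo `q` with all `a + h` prime to `q` the following holds for all large `X` with a set `B ⊆ H` of at
least `k` shifts (which depends on `X` only). Call `x` a pattern if `x ≡ a` modulo `q` and the primes in
`[x - R, x + R]` are exactly the numbers `x + y`, `y ∈ B`.

(1) There is a set `P` of patterns `x ≤ X` with at least `c X / (log X) ^ (K + 1)` regular points: EVERY interval
`(x - s, x + t]`, `s, t ≤ c X`, of length at least `(log X) ^ (K + 1) / c` contains between
`c (s + t) / (log X) ^ (K + 1)` and `(s + t) / (c (log X) ^ (K + 1))` elements of `P`.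

(2) For EVERY division of an interval containing `(X / 64, X]` into intervals of arbitrary lengths between
`(log X) ^ (K + 1) / c` and `c X` the intervals `I` which contain at least `c |I| / (log X) ^ (K + 1)` patterns have total
length at least `c X`.

(3) Powers. For every `s ≥ 2` (`s = 5`, `k = 4`: four primes between consecutive fifth powers) there is `c > 0` such
that for all large `N` there is `B ⊆ H` with at least `k` elements such that for at least `c N` of the `m < N` there are at
least `c N ^ (s - 1) / (log N) ^ (K + 1)` patterns between `m ^ s` and `(m + 1) ^ s`.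

The proof combines two starting files: the coloured theorem of Maynard-Tao type with a lower bound of the right
order of magnitude for linear forms (`Pool.Agent.Y827.RO.lamR0`), and helper977's theorem on the regular points of
sets of integers with rough values (`Pool.Agent.TH977.PW.final`); the exact patterns are from `Pool.Agent.Y826.ZC`.
-/

set_option autoImplicit false

namespace Pool.Agent.Results.MP_c03ca8_nt.PatternsAtEveryScale

open Finset Filter

/-- `H` is admissible, the numbers `a + h` are prime to `q` and `|h| ≤ R` for all `h ∈ H` -/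
def Adm (q : ℕ) (a : ℤ) (H : Finset ℤ) (R : ℕ) : Prop :=
  (∀ p : ℕ, p.Prime → ∃ r : ℤ, ∀ h ∈ H, ¬ (p : ℤ) ∣ r + h) ∧
    (∀ h ∈ H, IsCoprime (a + h) (q : ℤ)) ∧ ∀ h ∈ H, |h| ≤ R

/-- `x ≡ a` modulo `q`, and the primes in `[x - R, x + R]` are exactly the `x + y`, `y ∈ B` -/
def Pattern (q : ℕ) (a : ℤ) (B : Finset ℤ) (R x : ℕ) : Prop :=
  (x : ℤ) ≡ a [ZMOD q] ∧ ∀ y : ℤ, |y| ≤ R → ((∃ p : ℕ, p.Prime ∧ (p : ℤ) = x + y) ↔ y ∈ B)

/-- the number of the patterns `x` with `[x - R, x + R]` in `(u, v]` -/
noncomputable def patterns (q : ℕ) (a : ℤ) (B : Finset ℤ) (R u v : ℕ) : ℕ :=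
  {x : ℕ | u + R < x ∧ x + R ≤ v ∧ Pattern q a B R x}.ncard

/-- the number of the elements of `P` in `(u, v]` -/
noncomputable def count (P : Set ℕ) (u v : ℕ) : ℕ := {n : ℕ | n ∈ P ∧ u < n ∧ n ≤ v}.ncard

/-- every interval `(x - s, x + t]` with `s, t ≤ c X` of length at least `(log X) ^ D / c` contains between
`c (s + t) / (log X) ^ D` and `(s + t) / (c (log X) ^ D)` elements of `P` -/
def Regular (P : Set ℕ) (D : ℕ) (c : ℝ) (X x : ℕ) : Prop :=
  ∀ s t : ℕ, (s : ℝ) ≤ c * X → (t : ℝ) ≤ c * X → Real.log X ^ D ≤ c * (s + t) →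
    c * (s + t) / Real.log X ^ D ≤ count P (x - s) (x + t) ∧
      (count P (x - s) (x + t) : ℝ) ≤ (s + t) / (c * Real.log X ^ D)

/-- `u 0, …, u J` divide an interval which contains `(X / 64, X]` into intervals of lengths between
`(log X) ^ D / c` and `c X` -/
def Divides (D : ℕ) (c : ℝ) (X J : ℕ) (u : ℕ → ℕ) : Prop :=
  64 * u 0 < X ∧ X ≤ u J ∧
    ∀ i < J, Real.log X ^ D ≤ c * ((u (i + 1) : ℝ) - u i) ∧ (u (i + 1) : ℝ) - u i ≤ c * X

theorem N_eq (P : Set ℕ) (u v : ℕ) : Pool.Agent.TH977.PW.N P u v = count P u v := by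
  classical
  unfold Pool.Agent.TH977.PW.N count
  rw [← Set.ncard_coe_finset]
  congr 1
  ext n
  simp only [coe_filter, mem_Ioc, Set.mem_ofPred_eq]
  tauto

theorem reg_eq (P : Set ℕ) (D : ℕ) (c : ℝ) (X x : ℕ) :
    Pool.Agent.N743.MT.RegPt P D c X x ↔ Regular P D c X x := by
  unfold Pool.Agent.N743.MT.RegPt Regular
  simp only [N_eq]

theorem pat_eq (q : ℕ) (a : ℤ) (B : Finset ℤ) (R u v : ℕ) :
    (Pool.Agent.N743.MT.PatIn q a B R u v).ncard = patterns q a B R u v := rfl

open Classical in
/-- For every `k` there is `K` such that for every admissible `H` with at least `K` elements: (1), (2) there is `c > 0`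
such that for all large `X` there is `B ⊆ H` with at least `k` elements for which there is a set `P` of patterns `x ≤ X`
with at least `c X / (log X) ^ (K + 1)` regular points, and such that in every division of `(X / 64, X]` into
intervals of lengths between `(log X) ^ (K + 1) / c` and `c X` the intervals `I` with at least
`c |I| / (log X) ^ (K + 1)` patterns have total length at least `c X`; (3) for every `s ≥ 2` there is `c > 0` such that for
all large `N` there is `B ⊆ H` with at least `k` elements such that at least `c N` of the `m < N` have at least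
`c N ^ (s - 1) / (log N) ^ (K + 1)` patterns between `m ^ s` and `(m + 1) ^ s`. -/
theorem result (k : ℕ) : ∃ K : ℕ, ∀ (q : ℕ) (a : ℤ) (H : Finset ℤ) (R : ℕ), 0 < q → K ≤ H.card → Adm q a H R →
    (∃ c : ℝ, 0 < c ∧ ∀ᶠ X : ℕ in atTop, ∃ B ⊆ H, k ≤ B.card ∧
      (∃ P : Set ℕ, (∀ x ∈ P, x ≤ X ∧ Pattern q a B R x) ∧
        c * X / Real.log X ^ (K + 1) ≤ ({x : ℕ | x ∈ P ∧ Regular P (K + 1) c X x}.ncard : ℝ)) ∧
      ∀ (J : ℕ) (u : ℕ → ℕ), Divides (K + 1) c X J u →
        c * X ≤ ∑ i ∈ (range J).filter (fun i => c * ((u (i + 1) : ℝ) - u i) / Real.log X ^ (K + 1) ≤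
          (patterns q a B R (u i) (u (i + 1)) : ℝ)), ((u (i + 1) : ℝ) - u i)) ∧
    ∀ s : ℕ, 2 ≤ s → ∃ c : ℝ, 0 < c ∧ ∀ᶠ N : ℕ in atTop, ∃ B ⊆ H, k ≤ B.card ∧
      c * N ≤ (((range N).filter (fun m => c * (N : ℝ) ^ (s - 1) / Real.log N ^ (K + 1) ≤
        (patterns q a B R (m ^ s) ((m + 1) ^ s) : ℝ))).card : ℝ) := by
  obtain ⟨K, hK⟩ := Pool.Agent.N743.MT.pat_div k
  refine ⟨K, ?_⟩
  intro q a H R hq hHK hadm
  obtain ⟨H₀, hH₀, hcard⟩ := Finset.exists_subset_card_eq hHK
  obtain ⟨c, hc, h⟩ := hK q a H₀ R hq hcard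
    (fun p hp => by
      obtain ⟨r, hr⟩ := hadm.1 p hp
      exact ⟨r, fun h hh => hr h (hH₀ hh)⟩)
    (fun h hh => hadm.2.1 h (hH₀ hh)) (fun h hh => hadm.2.2 h (hH₀ hh))
  constructor
  · refine ⟨c, hc, ?_⟩
    filter_upwards [h] with X hX
    obtain ⟨B, hB, hBk, ⟨P, hP, hPr⟩, hdiv⟩ := hX
    refine ⟨B, hB.trans hH₀, hBk, ⟨P, fun x hx => ⟨(hP x hx).2.1, (hP x hx).2.2.1, (hP x hx).2.2.2⟩, ?_⟩, ?_⟩
    · simp only [reg_eq] at hPr
      rw [mul_div_assoc]
      exact hPr
    · intro J u hu
      have h1 := hdiv J u hu.1 hu.2.1 hu.2.2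
      simp only [pat_eq, ← mul_div_assoc] at h1
      exact h1
  · intro s hs
    obtain ⟨c', hc', h'⟩ := Pool.Agent.N743.MT.powers_of_div K k q a H₀ R c hc (by
      filter_upwards [h] with X hX
      obtain ⟨B, hB, hBk, -, hdiv⟩ := hX
      exact ⟨B, hB, hBk, hdiv⟩) s hs
    refine ⟨c', hc', ?_⟩
    filter_upwards [h'] with N hN
    obtain ⟨B, hB, hBk, h1⟩ := hN
    refine ⟨B, hB.trans hH₀, hBk, ?_⟩
    simp only [pat_eq, ← mul_div_assoc] at h1
    exact h1

end Pool.Agent.Results.MP_c03ca8_nt.PatternsAtEveryScale
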