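import Mathlib
import Pool.Agent.N735.CL.Tup3

/-!
# Prime quadruplets between consecutive fifth powers, for almost all patterns

A prime quadruplet between `n⁵` and `(n + 1)⁵` is one of the quadruples `(n⁵ + i, n⁵ + i + 2, n⁵ + i + 6,
n⁵ + i + 8)`, `i ≤ (n + 1)⁵ - n⁵ - 9`, which consists of primes. We replace the quadruples
`(i, i + 2, i + 6, i + 8)` by arbitrary quadruples `h_1, h_2, ...` of numbers from `{1, ..., X}`, the
same for all `n ≤ N`, `X = N⁵ ⌈log N⌉⁴`, and determine for almost all sequences `h` how many of them are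
needed for all `n ≤ N`: the threshold is `625 log⁵ N` (whereas there are about `5 n⁴` quadruples in the
problem). More precisely the number of the `n ≤ N` without primes is asymptotically Poisson. This is
true for `k`-tuples, `k ≥ 2`, and for all sets `S ⊆ {1, ..., X / log³ X}` in place of the fifth
powers.

The factorial moments are computed. For `k ≥ 2` the pair correlations are negligible by the upper bound
sieve for prime pairs (for `k = 1` they are not, because the number of the translates is larger than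
every power of the length of the patterns). The prime number theorem and the sieve bound are from
the starting files.
-/

set_option autoImplicit false
set_option maxHeartbeats 1000000

namespace Pool.Agent.Results.MP_c03ca8_nt.QuadrupletsForPatterns

open Finset Filter Topology

/-- the patterns: the sequences of `K` `k`-tuples with entries in `{1, ..., X}` -/
def patterns (X k K : ℕ) : Finset (Fin K → Fin k → ℕ) :=
  Fintype.piFinset fun _ => Fintype.piFinset fun _ => Icc 1 X

open Classical in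
/-- the proportion of the patterns which have the property `B` -/
noncomputable def proportion (X k K : ℕ) (B : (Fin K → Fin k → ℕ) → Prop) : ℝ :=
  (((patterns X k K).filter B).card : ℝ) / (patterns X k K).card

/-- for some `i` all the numbers `m + h_i^j`, `j = 1, ..., k`, are primes -/
def HasTuple {k K : ℕ} (h : Fin K → Fin k → ℕ) (m : ℕ) : Prop := ∃ i, ∀ j, (m + h i j).Prime

open Classical in
/-- the number of the `m` in `S` without a prime tuple -/
noncomputable def missed {k K : ℕ} (S : Finset ℕ) (h : Fin K → Fin k → ℕ) : ℕ := (S.filter fun m => ¬ HasTuple h m).card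

/-- the length of the patterns in the Poisson law -/
noncomputable def len (k : ℕ) (t : ℝ) (X M : ℕ) : ℕ := ⌊(Real.log M + t) / ((Nat.primeCounting X : ℝ) / X) ^ k⌋₊

/-- the range of the entries for the `a`-th powers -/
noncomputable def XN (a N : ℕ) : ℕ := N ^ a * ⌈Real.log N⌉₊ ^ 4

/-- the quadruples of the problem: `(i, i + 2, i + 6, i + 8)`, `i = 1, 2, ...` -/
def quad {K : ℕ} (i : Fin K) : Fin 4 → ℕ := ![(i : ℕ) + 1, (i : ℕ) + 3, (i : ℕ) + 7, (i : ℕ) + 9]

lemma prop_eq {X k K : ℕ} (B : (Fin K → Fin k → ℕ) → Prop) :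
    proportion X k K B = Pool.Agent.N735.CL.PA (Pool.Agent.N735.CL.Om X k) K B := by
  classical
  rw [Pool.Agent.N735.CL.PA_eq]
  unfold proportion
  have h0 : patterns X k K = Pool.Agent.N735.CL.OmA (Pool.Agent.N735.CL.Om X k) K := rfl
  rw [h0, Pool.Agent.N735.CL.card_OmA]
  push_cast
  congr!

lemma missed_eq {k K : ℕ} (S : Finset ℕ) (h : Fin K → Fin k → ℕ) :
    missed S h = Pool.Agent.N735.CL.failsA (Pool.Agent.N735.CL.Ek k) S h := by
  classical
  unfold missed Pool.Agent.N735.CL.failsA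
  congr 1
  ext m
  rw [mem_filter, mem_filter]
  unfold HasTuple Pool.Agent.N735.CL.Ek
  rw [not_exists]

lemma len_eq (k : ℕ) (t : ℝ) (X M : ℕ) : len k t X M = Pool.Agent.N735.CL.Kk k t X M := by
  unfold len Pool.Agent.N735.CL.Kk Pool.Agent.N735.CL.eta
  rw [Pool.Agent.N735.CL.E1_pr]
  simp

lemma missed_zero {a k K : ℕ} (N : ℕ) (h : Fin K → Fin k → ℕ) :
    Pool.Agent.N735.CL.failsA (Pool.Agent.N735.CL.Ek k) (Pool.Agent.N735.CL.powsA a N) h = 0 ↔
      ∀ n ∈ Icc 1 N, HasTuple h (n ^ a) := by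
  classical
  rw [← missed_eq]
  unfold missed Pool.Agent.N735.CL.powsA
  rw [card_eq_zero, filter_eq_empty_iff]
  constructor
  · intro h1 n hn
    have := h1 (mem_image_of_mem _ hn)
    rwa [not_not] at this
  · intro h1 m hm
    rw [mem_image] at hm
    obtain ⟨n, hn, rfl⟩ := hm
    rw [not_not]
    exact h1 n hn

theorem result :
    (∀ n : ℕ, HasTuple (fun i : Fin ((n + 1) ^ 5 - n ^ 5 - 9) => quad i) (n ^ 5) ↔
      ∃ p : ℕ, p.Prime ∧ (p + 2).Prime ∧ (p + 6).Prime ∧ (p + 8).Prime ∧ n ^ 5 < p ∧ p + 8 < (n + 1) ^ 5) ∧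
    (∀ k : ℕ, 2 ≤ k → ∀ (t : ℝ) (r : ℕ) (ε : ℝ), 0 < ε → ∃ Y : ℕ, ∀ X : ℕ, Y ≤ X → ∀ S : Finset ℕ, Y ≤ S.card →
      (∀ m ∈ S, 1 ≤ m ∧ (m : ℝ) * Real.log X ^ 3 ≤ X) →
      |proportion X k (len k t X S.card) (fun h => missed S h = r) -
        Real.exp (-Real.exp (-t)) * Real.exp (-t) ^ r / r.factorial| < ε) ∧
    (∀ a k : ℕ, 1 ≤ a → 2 ≤ k → ∀ c : ℝ,
      ((a : ℝ) ^ k < c → Tendsto (fun N : ℕ => proportion (XN a N) k ⌊c * Real.log N ^ (k + 1)⌋₊
        (fun h => ∀ n ∈ Icc 1 N, HasTuple h (n ^ a))) atTop (𝓝 1)) ∧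
      (c < (a : ℝ) ^ k → Tendsto (fun N : ℕ => proportion (XN a N) k ⌊c * Real.log N ^ (k + 1)⌋₊
        (fun h => ∀ n ∈ Icc 1 N, HasTuple h (n ^ a))) atTop (𝓝 0))) := by
  refine ⟨?_, ?_, ?_⟩
  · intro n
    unfold HasTuple
    constructor
    · rintro ⟨i, hi⟩
      have h0 := hi 0
      have h1 := hi 1
      have h2 := hi 2
      have h3 := hi 3
      simp only [quad, Matrix.cons_val] at h0 h1 h2 h3
      have hi2 := i.2
      refine ⟨n ^ 5 + ((i : ℕ) + 1), h0, ?_, ?_, ?_, by omega, by omega⟩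
      · have e : n ^ 5 + ((i : ℕ) + 1) + 2 = n ^ 5 + ((i : ℕ) + 3) := by ring
        rw [e]; exact h1
      · have e : n ^ 5 + ((i : ℕ) + 1) + 6 = n ^ 5 + ((i : ℕ) + 7) := by ring
        rw [e]; exact h2
      · have e : n ^ 5 + ((i : ℕ) + 1) + 8 = n ^ 5 + ((i : ℕ) + 9) := by ring
        rw [e]; exact h3
    · rintro ⟨p, h0, h1, h2, h3, h4, h5⟩
      refine ⟨⟨p - n ^ 5 - 1, by omega⟩, ?_⟩
      intro j
      fin_cases j
      · show (n ^ 5 + (p - n ^ 5 - 1 + 1)).Prime
        have e : n ^ 5 + (p - n ^ 5 - 1 + 1) = p := by omega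
        rw [e]; exact h0
      · show (n ^ 5 + (p - n ^ 5 - 1 + 3)).Prime
        have e : n ^ 5 + (p - n ^ 5 - 1 + 3) = p + 2 := by omega
        rw [e]; exact h1
      · show (n ^ 5 + (p - n ^ 5 - 1 + 7)).Prime
        have e : n ^ 5 + (p - n ^ 5 - 1 + 7) = p + 6 := by omega
        rw [e]; exact h2
      · show (n ^ 5 + (p - n ^ 5 - 1 + 9)).Prime
        have e : n ^ 5 + (p - n ^ 5 - 1 + 9) = p + 8 := by omega
        rw [e]; exact h3
  · intro k hk t r ε hε
    obtain ⟨Y, hY⟩ := Pool.Agent.N735.CL.tup_unif k hk t r ε hε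
    refine ⟨Y, fun X hX S hS hm => ?_⟩
    have h := hY X hX S hS hm
    rw [prop_eq, len_eq]
    simp_rw [missed_eq]
    exact h
  · intro a k ha hk c
    have e : ∀ N : ℕ, proportion (XN a N) k ⌊c * Real.log N ^ (k + 1)⌋₊ (fun h => ∀ n ∈ Icc 1 N, HasTuple h (n ^ a)) =
        Pool.Agent.N735.CL.PA (Pool.Agent.N735.CL.Om (Pool.Agent.N735.CL.XN a N) k) ⌊c * Real.log N ^ (k + 1)⌋₊
          (fun h => Pool.Agent.N735.CL.failsA (Pool.Agent.N735.CL.Ek k) (Pool.Agent.N735.CL.powsA a N) h = 0) := by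
      intro N
      rw [prop_eq]
      simp_rw [missed_zero]
      rfl
    constructor
    · intro hc
      exact (Pool.Agent.N735.CL.pow_hi a k ha hk c hc).congr (fun N => (e N).symm)
    · intro hc
      exact (Pool.Agent.N735.CL.pow_lo a k ha hk c hc).congr (fun N => (e N).symm)

end Pool.Agent.Results.MP_c03ca8_nt.QuadrupletsForPatterns
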